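import Pool.Agent.Helper12.NK.St

/-!
# Project NK, module HCN: connectivity from the hypothesis on small cuts
-/

set_option autoImplicit false

namespace Pool.Agent.Helper58.NK

open Pool.Agent.Helper12.NK
open Pool.Agent.Helper51.AJ (IsMinor Planar Apex ExMinor Con Tch)

variable {V : Type}

/-- In a connected set with another element every vertex has a neighbour. -/
private theorem nb {G : SimpleGraph V} {S : Set V} (h : Con G S) {y z : V} (hy : y ∈ S) (hz : z ∈ S)
    (hyz : y ≠ z) : ∃ b ∈ S, G.Adj y b := by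
  obtain ⟨w⟩ := h.preconnected ⟨y, hy⟩ ⟨z, hz⟩
  generalize ha : (⟨y, hy⟩ : S) = a at w
  generalize hb : (⟨z, hz⟩ : S) = b at w
  cases w with
  | nil =>
    exact absurd (congrArg Subtype.val (ha.trans hb.symm)) hyz
  | @cons _ c _ hadj _ =>
    subst ha
    exact ⟨c.1, c.2, hadj⟩

/-- A set with fewer elements than `V` misses a vertex. -/
private theorem exists_notMem [Finite V] {X : Set V} {n : ℕ} (hX : X.ncard ≤ n) (hn : n < Nat.card V) :
    ∃ z, z ∉ X := by
  by_contra hc
  push Not at hc
  have : X = Set.univ := Set.eq_univ_of_forall hc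
  rw [this, Set.ncard_univ] at hX
  omega

private theorem ncard_compl [Finite V] (X : Set V) : X.ncard + Xᶜ.ncard = Nat.card V :=
  Set.ncard_add_ncard_compl X

private theorem pair_le [Finite V] (x y : V) : ({x, y} : Set V).ncard ≤ 2 := by
  have h := Set.ncard_insert_le x ({y} : Set V)
  rw [Set.ncard_singleton] at h
  exact h

private theorem triple_le [Finite V] (x y z : V) : ({x, y, z} : Set V).ncard ≤ 3 := by
  have h := Set.ncard_insert_le x ({y, z} : Set V)
  have h2 := pair_le y z
  omega

/-- HCN. -/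
theorem hHCN : StHCN := by
  intro V hV G hG
  obtain ⟨h7, hc⟩ := hG
  refine ⟨?_, ?_, ?_, ?_, ?_⟩
  · intro x y
    have h1 := ncard_compl ({x, y} : Set V)
    have h2 := pair_le x y
    refine ⟨by omega, fun X hX => ?_⟩
    have h3 : ({x, y}ᶜ \ X : Set V) = ({x, y} ∪ X)ᶜ := by
      rw [Set.compl_union, Set.sdiff_eq]
    have h4 := Set.ncard_union_le ({x, y} : Set V) X
    rw [h3]
    exact hc _ (by omega) (fun h => by omega)
  · intro u v y huv
    have h1 := ncard_compl ({u, v, y} : Set V)
    have h2 := triple_le u v y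
    refine ⟨by omega, fun X hX => ?_⟩
    have h3 : ({u, v, y}ᶜ \ X : Set V) = ({u, v, y} ∪ X)ᶜ := by
      rw [Set.compl_union, Set.sdiff_eq]
    have h4 := Set.ncard_union_le ({u, v, y} : Set V) X
    rw [h3]
    exact hc _ (by omega) (fun _ => ⟨u, by simp, v, by simp, huv⟩)
  · intro u v huv
    have h1 := ncard_compl ({u, v} : Set V)
    have h2 := pair_le u v
    refine ⟨by omega, fun X hX => ?_⟩
    have h3 : ({u, v}ᶜ \ X : Set V) = ({u, v} ∪ X)ᶜ := by
      rw [Set.compl_union, Set.sdiff_eq]
    have h4 := Set.ncard_union_le ({u, v} : Set V) X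
    rw [h3]
    exact hc _ (by omega) (fun _ => ⟨u, by simp, v, by simp, huv⟩)
  · intro y
    by_contra hlt
    push Not at hlt
    have hcon : Con G {b | G.Adj y b}ᶜ := hc _ (by omega) (fun h => by omega)
    have h4 := Set.ncard_insert_le y {b | G.Adj y b}
    obtain ⟨z, hz⟩ := exists_notMem (X := insert y {b | G.Adj y b}) (n := 5) (by omega) (by omega)
    rw [Set.mem_insert_iff, not_or] at hz
    obtain ⟨b, hb, hyb⟩ := nb hcon (y := y) (z := z) (fun h => G.ne_of_adj h rfl) hz.2 (fun h => hz.1 h.symm)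
    exact hb hyb
  · intro y h5 a b ha hb hab
    have hcon : Con G {b | G.Adj y b}ᶜ := hc _ (by omega) (fun _ => ⟨a, ha, b, hb, hab⟩)
    have h4 := Set.ncard_insert_le y {b | G.Adj y b}
    obtain ⟨z, hz⟩ := exists_notMem (X := insert y {b | G.Adj y b}) (n := 6) (by omega) (by omega)
    rw [Set.mem_insert_iff, not_or] at hz
    obtain ⟨c, hc', hyc⟩ := nb hcon (y := y) (z := z) (fun h => G.ne_of_adj h rfl) hz.2 (fun h => hz.1 h.symm)
    exact hc' hyc

end Pool.Agent.Helper58.NK
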